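import Pool.Agent.V11243.PD.Base
import Pool.Agent.Results.MP_b50d59_nt.ShortIntervals

/-!
# Residue classes without composite solutions of `n ≡ a(n)` modulo `φ(n)`

`a(n)` is the largest exponent in the prime factorisation of `n`; a solution is a composite `n > 4` such that
`φ(n)` divides `n - a(n)`.

1. For every prime `p` and `σ > 0`, for all `α ∈ ℤ_p` outside of a set of Hausdorff dimension at most `(1/2) / σ` and all
large `T`, no solution `n ≤ T` satisfies `|n - α|_p ≤ T ^ (-σ)`. So for `1/2 < σ < 1` and almost all `α` the progression of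
all `n ≡ α` modulo `p ^ j`, `n ≤ p ^ (j / σ)`, contains no solution if `j` is large; it has about `p ^ (j (1 / σ - 1))`
members, almost as many as its modulus when `σ` is close to `1 / 2`.

2. For every map `φ` of `ℕ` to a metric space and `σ > 0`, for all `z` outside of a set of Hausdorff dimension at
most `(1/2) / σ`, only finitely many solutions `n` satisfy `dist (φ n) z ≤ n ^ (-σ)`.

The number of the solutions `≤ X` is `O (X log X) ^ (1/2)` (starting file `ShortIntervals`); the rest are coverings.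
-/

set_option autoImplicit false

open MeasureTheory

namespace Pool.Agent.Results.MP_b50d59_nt.PadicClasses

/-- the composite `n > 4` for which `φ(n)` divides `n - a(n)` -/
def Sol (n : ℕ) : Prop := 4 < n ∧ ¬ n.Prime ∧ n.totient ∣ (n - Nca8c8b9b.a n)

theorem count (ε : ℝ) (hε : 0 < ε) : ∃ C : ℝ, ∀ X : ℝ, 1 ≤ X →
    {t : ℕ | t ∈ {n : ℕ | Sol n} ∧ (t : ℝ) ≤ X}.Finite ∧
      ({t : ℕ | t ∈ {n : ℕ | Sol n} ∧ (t : ℝ) ≤ X}.ncard : ℝ) ≤ C * X ^ ((1 : ℝ) / 2 + ε) := by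
  classical
  obtain ⟨C, hC, h⟩ := Pool.Agent.Results.MP_b50d59_nt.ShortIntervals.result
  refine ⟨C * Real.sqrt (2 ^ (1 + 2 * ε) / (2 * ε)), fun X hX => ?_⟩
  have hX0 : 0 < X := by linarith
  have h1 : 1 ≤ ⌊X⌋₊ := Nat.le_floor (by exact_mod_cast hX)
  have hfl : ((⌊X⌋₊ : ℕ) : ℝ) ≤ X := Nat.floor_le hX0.le
  have h2 := (h 0 ⌊X⌋₊ h1).1
  rw [Nat.zero_add] at h2
  have hfin : {t : ℕ | t ∈ {n : ℕ | Sol n} ∧ (t : ℝ) ≤ X}.Finite :=
    (Set.finite_Iic ⌊X⌋₊).subset fun t ht => Nat.le_floor ht.2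
  refine ⟨hfin, ?_⟩
  have hsub : {t : ℕ | t ∈ {n : ℕ | Sol n} ∧ (t : ℝ) ≤ X} ⊆
      (((Finset.Ioc 0 ⌊X⌋₊).filter (fun n : ℕ =>
        4 < n ∧ ¬ n.Prime ∧ n.totient ∣ (n - Nca8c8b9b.a n)) : Finset ℕ) : Set ℕ) := by
    rintro t ⟨a, b⟩
    rw [Finset.mem_coe, Finset.mem_filter, Finset.mem_Ioc]
    have a' : Sol t := a
    exact ⟨⟨by have := a'.1; omega, Nat.le_floor b⟩, a'⟩
  have h3 : ({t : ℕ | t ∈ {n : ℕ | Sol n} ∧ (t : ℝ) ≤ X}.ncard : ℝ) ≤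
      (((Finset.Ioc 0 ⌊X⌋₊).filter (fun n : ℕ =>
        4 < n ∧ ¬ n.Prime ∧ n.totient ∣ (n - Nca8c8b9b.a n))).card : ℝ) := by
    have := Set.ncard_le_ncard hsub (Finset.finite_toSet _)
    rw [Set.ncard_coe_finset] at this
    exact_mod_cast this
  refine (h3.trans h2).trans ?_
  rw [mul_assoc]
  refine mul_le_mul_of_nonneg_left ?_ hC.le
  have h4 : ((⌊X⌋₊ : ℕ) : ℝ) * Real.log (((0 : ℕ) : ℝ) + (⌊X⌋₊ : ℕ) + 1) ≤
      2 ^ (1 + 2 * ε) / (2 * ε) * X ^ (1 + 2 * ε) := by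
    have g1 : Real.log (((0 : ℕ) : ℝ) + (⌊X⌋₊ : ℕ) + 1) ≤ Real.log (2 * X) := by
      apply Real.log_le_log
      · positivity
      · push_cast
        linarith
    have g2 : Real.log (2 * X) ≤ (2 * X) ^ (2 * ε) / (2 * ε) :=
      Real.log_le_rpow_div (by positivity) (by positivity)
    calc ((⌊X⌋₊ : ℕ) : ℝ) * Real.log (((0 : ℕ) : ℝ) + (⌊X⌋₊ : ℕ) + 1)
        ≤ (2 * X) * ((2 * X) ^ (2 * ε) / (2 * ε)) := by
          apply mul_le_mul (by linarith) (g1.trans g2) _ (by positivity)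
          apply Real.log_nonneg
          push_cast
          linarith [Nat.cast_nonneg (α := ℝ) ⌊X⌋₊]
      _ = ((2 * X) ^ (1 : ℝ) * (2 * X) ^ (2 * ε)) / (2 * ε) := by rw [Real.rpow_one]; ring
      _ = (2 * X) ^ (1 + 2 * ε) / (2 * ε) := by rw [← Real.rpow_add (by positivity)]
      _ = 2 ^ (1 + 2 * ε) / (2 * ε) * X ^ (1 + 2 * ε) := by
          rw [Real.mul_rpow (by norm_num) hX0.le]
          ring
  calc Real.sqrt (((⌊X⌋₊ : ℕ) : ℝ) * Real.log (((0 : ℕ) : ℝ) + (⌊X⌋₊ : ℕ) + 1))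
      ≤ Real.sqrt (2 ^ (1 + 2 * ε) / (2 * ε) * X ^ (1 + 2 * ε)) := Real.sqrt_le_sqrt h4
    _ = Real.sqrt (2 ^ (1 + 2 * ε) / (2 * ε)) * X ^ ((1 : ℝ) / 2 + ε) := by
        rw [Real.sqrt_mul (by positivity), Real.sqrt_eq_rpow (X ^ (1 + 2 * ε)), ← Real.rpow_mul hX0.le]
        congr 2
        ring

theorem result :
    (∀ (p : ℕ) [Fact p.Prime] (σ : ℝ), 0 < σ →
      ∃ E : Set ℤ_[p], dimH E ≤ ENNReal.ofReal ((1 / 2) / σ) ∧
        ∀ α ∉ E, ∃ T₀ : ℝ, ∀ T ≥ T₀, ∀ n : ℕ, Sol n → (n : ℝ) ≤ T → T ^ (-σ) < ‖(n : ℤ_[p]) - α‖) ∧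
    (∀ (M : Type) [MetricSpace M] (φ : ℕ → M) (σ : ℝ), 0 < σ →
      ∃ E : Set M, dimH E ≤ ENNReal.ofReal ((1 / 2) / σ) ∧
        ∀ z ∉ E, {n : ℕ | Sol n ∧ dist (φ n) z ≤ (n : ℝ) ^ (-σ)}.Finite) := by
  refine ⟨fun p _ σ hσ => ?_, fun M _ φ σ hσ => ?_⟩
  · obtain ⟨E, h1, h2⟩ := Pool.Agent.H223.PS.padic_nat p (fun _ => {n : ℕ | Sol n}) (s := 1 / 2) (by norm_num)
      (fun _ => count) hσ
    refine ⟨E, h1, fun α hα => ?_⟩
    obtain ⟨T₀, hT₀⟩ := h2 α hα 0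
    refine ⟨T₀, fun T hT n hn hnT => ?_⟩
    by_contra hcon
    exact hT₀ T hT n hnT (not_lt.1 hcon) hn
  · obtain ⟨E, h1, h2⟩ := Pool.Agent.H107.ME.dim_family φ (fun t : ℕ => max 1 (t : ℝ))
      (fun t => le_max_left _ _) (s := 1 / 2) (by norm_num) hσ (fun _ : Unit => {n : ℕ | Sol n}) (fun _ e he => by
        obtain ⟨C, hC⟩ := count e he
        refine ⟨C, fun X hX => ?_⟩
        obtain ⟨g1, g2⟩ := hC X hX
        have hsub : {t : ℕ | t ∈ {n : ℕ | Sol n} ∧ max 1 (t : ℝ) ≤ X} ⊆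
            {t : ℕ | t ∈ {n : ℕ | Sol n} ∧ (t : ℝ) ≤ X} := by
          rintro t ⟨a, b⟩
          exact ⟨a, (le_max_right _ _).trans b⟩
        exact ⟨g1.subset hsub, le_trans (Nat.cast_le.2 (Set.ncard_le_ncard hsub g1)) g2⟩)
    refine ⟨E, h1, fun z hz => (h2 z hz ()).subset ?_⟩
    rintro n ⟨a, b⟩
    refine ⟨a, ?_⟩
    show dist (φ n) z ≤ (max 1 (n : ℝ)) ^ (-σ)
    rw [max_eq_right (by have := a.1; exact_mod_cast (show 1 ≤ n by omega))]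
    exact b

end Pool.Agent.Results.MP_b50d59_nt.PadicClasses
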