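import Pool.Agent.H164.LS.Three
import Pool.Agent.Results.MP_b50d59_nt.LehmerSqrtLogLogSquared

/-! # Composite solutions of `n ≡ a(n) (mod φ(n))` near the members of typical sequences -/

set_option autoImplicit false

open MeasureTheory

namespace Pool.Agent.Results.MP_b50d59_nt.SequencesWithoutSolutions

/-- `t` is a composite solution `> 4` of `t ≡ a(t) (mod φ(t))`. -/
def Sol (t : ℕ) : Prop := 4 < t ∧ ¬ t.Prime ∧ t.totient ∣ (t - Nca8c8b9b.a t)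

theorem count : ∀ ε : ℝ, 0 < ε → ∃ C : ℝ, ∀ X : ℝ, 1 ≤ X →
    ({t : ℕ | t ∈ {t | Sol t} ∧ (t : ℝ) ≤ X}.ncard : ℝ) ≤ C * X ^ (1 / 2 + ε) := by
  classical
  intro ε hε
  obtain ⟨C, hC, h⟩ := LehmerSqrtLogLogSquared.result
  refine ⟨C, fun X hX => ?_⟩
  have hX0 : 0 ≤ X := by linarith
  have hsub : {t : ℕ | t ∈ {t | Sol t} ∧ (t : ℝ) ≤ X} =
      (((Finset.Icc 1 ⌊X⌋₊).filter (fun n : ℕ => 4 < n ∧ ¬ n.Prime ∧ n.totient ∣ (n - Nca8c8b9b.a n)) :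
        Finset ℕ) : Set ℕ) := by
    ext t
    rw [Finset.mem_coe, Finset.mem_filter, Finset.mem_Icc]
    constructor
    · rintro ⟨h1, h2⟩
      have h3 : Sol t := h1
      exact ⟨⟨by have := h3.1; omega, Nat.le_floor h2⟩, h3⟩
    · rintro ⟨⟨-, h1⟩, h2⟩
      exact ⟨h2, (Nat.le_floor_iff hX0).1 h1⟩
  rw [hsub, Set.ncard_coe_finset]
  by_cases hx : 2 ≤ ⌊X⌋₊
  · have h1 := h ⌊X⌋₊ hx
    refine h1.trans ?_
    have h2 : Real.exp (-(Real.log (Real.log (⌊X⌋₊ : ℝ))) ^ 2 / 48) ≤ 1 := by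
      apply Real.exp_le_one_iff.2
      have := sq_nonneg (Real.log (Real.log (⌊X⌋₊ : ℝ)))
      linarith
    have h3 : Real.sqrt (⌊X⌋₊ : ℝ) ≤ X ^ (1 / 2 + ε) := by
      calc Real.sqrt (⌊X⌋₊ : ℝ) ≤ Real.sqrt X := Real.sqrt_le_sqrt (Nat.floor_le hX0)
        _ = X ^ ((1 : ℝ) / 2) := Real.sqrt_eq_rpow X
        _ ≤ X ^ (1 / 2 + ε) := Real.rpow_le_rpow_of_exponent_le hX (by linarith)
    calc C * Real.sqrt (⌊X⌋₊ : ℝ) * Real.exp (-(Real.log (Real.log (⌊X⌋₊ : ℝ))) ^ 2 / 48)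
        ≤ C * Real.sqrt (⌊X⌋₊ : ℝ) * 1 := mul_le_mul_of_nonneg_left h2 (by positivity)
      _ ≤ C * X ^ (1 / 2 + ε) := by
          rw [mul_one]
          exact mul_le_mul_of_nonneg_left h3 hC.le
  · have h1 : ((Finset.Icc 1 ⌊X⌋₊).filter (fun n : ℕ =>
        4 < n ∧ ¬ n.Prime ∧ n.totient ∣ (n - Nca8c8b9b.a n))) = ∅ := by
      rw [Finset.filter_eq_empty_iff]
      intro t ht hsol
      rw [Finset.mem_Icc] at ht
      have := hsol.1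
      omega
    rw [h1, Finset.card_empty, Nat.cast_zero]
    exact mul_nonneg hC.le (Real.rpow_nonneg hX0 _)

/-- Let `0 ≤ θ < 1`. No composite `t > 4` with `φ(t) ∣ t - a(t)` satisfies `|t - α v_n| ≤ v_n ^ θ` for all large `n`
and all `α > 0` outside a set of dimension at most `(1 / 2 + τ) / (1 - θ)`, where `v_n ≥ 1` has exponent of convergence
at most `τ`; the same for the windows `|t - α ^ n| ≤ α ^ (n θ)` and all `α > 1` outside a set of dimension at most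
`(1 / 2) / (1 - θ)`, and for the windows `|t - n ^ α| ≤ n ^ (α θ)` and all `α > 0` outside a set whose part in `[a, ∞)`
has dimension at most `(1 / 2 + 1 / a) / (1 - θ)` for every `a > 0`. -/
theorem result (θ : ℝ) (hθ0 : 0 ≤ θ) (hθ1 : θ < 1) :
    (∀ (v : ℕ → ℝ) (τ : ℝ), (∀ n, 1 ≤ v n) → 0 ≤ τ → (∀ u : ℝ, τ < u → Summable fun n : ℕ => (v n) ^ (-u)) →
      ∃ E : Set ℝ, dimH E ≤ ENNReal.ofReal ((1 / 2 + τ) / (1 - θ)) ∧ ∀ α : ℝ, 0 < α → α ∉ E →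
        ∃ n₀ : ℕ, ∀ n : ℕ, n₀ ≤ n → ∀ t : ℕ, |(t : ℝ) - α * v n| ≤ (v n) ^ θ → ¬ Sol t) ∧
    (∃ E : Set ℝ, dimH E ≤ ENNReal.ofReal (1 / 2 / (1 - θ)) ∧ ∀ α : ℝ, 1 < α → α ∉ E →
      ∃ n₀ : ℕ, ∀ n : ℕ, n₀ ≤ n → ∀ t : ℕ, |(t : ℝ) - α ^ n| ≤ (α ^ n) ^ θ → ¬ Sol t) ∧
    (∃ E : Set ℝ, (∀ a : ℝ, 0 < a → dimH (E ∩ Set.Ici a) ≤ ENNReal.ofReal ((1 / 2 + 1 / a) / (1 - θ))) ∧
      ∀ α : ℝ, 0 < α → α ∉ E →
        ∃ n₀ : ℕ, ∀ n : ℕ, n₀ ≤ n → ∀ t : ℕ, |(t : ℝ) - (n : ℝ) ^ α| ≤ ((n : ℝ) ^ α) ^ θ → ¬ Sol t) :=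
  Pool.Agent.H164.LS.three {t | Sol t} (by norm_num) hθ0 hθ1 count

end Pool.Agent.Results.MP_b50d59_nt.SequencesWithoutSolutions
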